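import Mathlib

/-!
# Locating chromatic number of Cartesian products (MP_fc8d4d_co)

For every `t` there is a finite connected graph `G` with `χ_L(G □ G) ≥ χ_L(G) + t`.
-/

namespace Pool.Agent.Results.MP_fc8d4d_co.LocatingProduct

open SimpleGraph

/-- distance from a vertex to a set of vertices -/
noncomputable def dSet {V : Type} (G : SimpleGraph V) (v : V) (C : Set V) : ℕ :=
  sInf {n | ∃ u ∈ C, G.dist v u = n}

/-- locating colouring: proper, and distinct vertices have distinct colour codes -/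
def IsLocating {V : Type} (G : SimpleGraph V) {k : ℕ} (c : V → Fin k) : Prop :=
  (∀ u v, G.Adj u v → c u ≠ c v) ∧
    ∀ u v, (∀ i, dSet G u {w | c w = i} = dSet G v {w | c w = i}) → u = v

/-- locating chromatic number -/
noncomputable def chiL {V : Type} (G : SimpleGraph V) : ℕ :=
  sInf {k | ∃ c : V → Fin k, IsLocating G c}

/-- The vertices: vectors of length `r+1` with entries in `{0,…,m}`, all of the same parity, with
at most one zero entry. -/
def Vert (r m : ℕ) : Type :=
  {x : Fin (r + 1) → Fin (m + 1) // (∀ i j, (x i : ℕ) % 2 = (x j : ℕ) % 2) ∧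
    ∀ i j, (x i : ℕ) = 0 → (x j : ℕ) = 0 → i = j}

noncomputable instance (r m : ℕ) : Fintype (Vert r m) := by
  unfold Vert
  classical
  infer_instance

/-- coordinate -/
def Vert.co {r m : ℕ} (x : Vert r m) (i : Fin (r + 1)) : ℕ := x.1 i

theorem Vert.ext {r m : ℕ} {x y : Vert r m} (h : ∀ i, x.co i = y.co i) : x = y :=
  Subtype.ext (funext fun i => Fin.ext (h i))

theorem Vert.le {r m : ℕ} (x : Vert r m) (i : Fin (r + 1)) : x.co i ≤ m :=
  Nat.lt_succ_iff.1 (x.1 i).2

/-- constructor -/
def Vert.mk {r m : ℕ} (f : Fin (r + 1) → ℕ) (h1 : ∀ i, f i ≤ m) (h2 : ∀ i j, f i % 2 = f j % 2)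
    (h3 : ∀ i j, f i = 0 → f j = 0 → i = j) : Vert r m :=
  ⟨fun i => ⟨f i, Nat.lt_succ_iff.2 (h1 i)⟩, h2, h3⟩

theorem Vert.co_mk {r m : ℕ} (f : Fin (r + 1) → ℕ) (h1 : ∀ i, f i ≤ m)
    (h2 : ∀ i j, f i % 2 = f j % 2)
    (h3 : ∀ i j, f i = 0 → f j = 0 → i = j) (i) : (Vert.mk f h1 h2 h3 : Vert r m).co i = f i := rfl

theorem Vert.par {r m : ℕ} (x : Vert r m) (i j) : x.co i % 2 = x.co j % 2 := x.2.1 i j

theorem Vert.zero {r m : ℕ} (x : Vert r m) (i j) (h1 : x.co i = 0) (h2 : x.co j = 0) : i = j :=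
  x.2.2 i j h1 h2

/-- The graph: all coordinates change by exactly one. -/
def G (r m : ℕ) : SimpleGraph (Vert r m) where
  Adj x y := ∀ i, x.co i + 1 = y.co i ∨ y.co i + 1 = x.co i
  symm := ⟨fun _ _ h i => (h i).symm⟩
  loopless := ⟨fun x h => by have := h 0; omega⟩

variable {r m : ℕ}

/-! ### The locating colouring with `r + 3` colours -/

open Classical in
/-- the colouring -/
noncomputable def col (x : Vert r m) : Fin (r + 3) :=
  if h : ∃ i, x.co i = 0 then ⟨(h.choose : ℕ), by have := h.choose.2; omega⟩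
  else if x.co 0 % 2 = 0 then ⟨r + 1, by omega⟩ else ⟨r + 2, by omega⟩

theorem col_zero (x : Vert r m) (i : Fin (r + 1)) :
    col x = ⟨(i : ℕ), by have := i.2; omega⟩ ↔ x.co i = 0 := by
  unfold col
  split_ifs with h h2
  · have hs := h.choose_spec
    constructor
    · intro e
      have : h.choose = i := Fin.ext (by simpa using e)
      rw [← this]; exact hs
    · intro e
      have : h.choose = i := x.zero _ _ hs e
      simp [this]
  · constructor
    · intro e
      have := i.2
      simp at e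
      omega
    · intro e
      exact absurd ⟨i, e⟩ h
  · constructor
    · intro e
      have := i.2
      simp at e
      omega
    · intro e
      exact absurd ⟨i, e⟩ h

theorem col_odd (x : Vert r m) : col x = ⟨r + 2, by omega⟩ ↔ x.co 0 % 2 = 1 := by
  unfold col
  split_ifs with h h2
  · have hs := h.choose_spec
    have hp := x.par h.choose 0
    have h1 := h.choose.2
    constructor
    · intro e
      simp at e
      omega
    · intro e
      rw [hs] at hp
      omega
  · simp only [Fin.mk.injEq]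
    omega
  · simp only [true_iff]
    omega

theorem col_proper (x y : Vert r m) (h : (G r m).Adj x y) : col x ≠ col y := by
  intro e
  have h0 := h 0
  have hx := col_odd x
  have hy := col_odd y
  rw [e] at hx
  rcases Nat.mod_two_eq_zero_or_one (x.co 0) with hx0 | hx1
  · have : y.co 0 % 2 = 1 := by omega
    have := hx.1 (hy.2 this)
    omega
  · have := hy.1 (hx.2 hx1)
    omega

/-- step which lowers coordinate `i` -/
theorem exists_step (hm : 2 ≤ m) (x : Vert r m) (i : Fin (r + 1)) (hx : 1 ≤ x.co i) :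
    ∃ y : Vert r m, (G r m).Adj x y ∧ y.co i + 1 = x.co i := by
  let f : Fin (r + 1) → ℕ := fun j =>
    if j = i then x.co j - 1 else if 2 ≤ x.co j then x.co j - 1 else
      if x.co j = 1 then 2 else 1
  have hf : ∀ j, x.co j + 1 = f j ∨ f j + 1 = x.co j := by
    intro j
    simp only [f]
    by_cases h : j = i
    · subst h; simp only [if_true]; omega
    · split_ifs <;> omega
  have h1 : ∀ j, f j ≤ m := by
    intro j
    have := x.le j
    simp only [f]
    split_ifs <;> omega
  have h3 : ∀ j, f j = 0 → j = i := by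
    intro j hj
    by_contra h
    simp only [f, if_neg h] at hj
    split_ifs at hj <;> omega
  refine ⟨Vert.mk f h1 ?_ ?_, fun j => by rw [Vert.co_mk]; exact hf j, ?_⟩
  · intro a b
    have := x.par a b
    have ha := hf a
    have hb := hf b
    omega
  · intro a b ha hb
    rw [h3 a ha, h3 b hb]
  · rw [Vert.co_mk]
    simp only [f, if_true]
    omega

theorem exists_walk (hm : 2 ≤ m) (i : Fin (r + 1)) : ∀ (n : ℕ) (x : Vert r m), x.co i = n →
    ∃ (y : Vert r m) (p : (G r m).Walk x y), y.co i = 0 ∧ p.length = n := by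
  intro n
  induction n with
  | zero => intro x hx; exact ⟨x, Walk.nil, hx, rfl⟩
  | succ n ih =>
    intro x hx
    obtain ⟨y, hxy, hy⟩ := exists_step hm x i (by omega)
    obtain ⟨z, p, hz, hp⟩ := ih y (by omega)
    exact ⟨z, Walk.cons hxy p, hz, by rw [Walk.length_cons, hp]⟩

theorem walk_lower (i : Fin (r + 1)) {x y : Vert r m} (p : (G r m).Walk x y) :
    x.co i ≤ y.co i + p.length := by
  induction p with
  | nil => simp
  | cons h p ih =>
    have := h i
    rw [Walk.length_cons]
    omega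

/-! ### Connectivity and diameter -/

/-- all-ones vector -/
def one (hm : 2 ≤ m) : Vert r m := Vert.mk (fun _ => 1) (fun _ => by omega) (fun _ _ => rfl)
  (fun _ _ h => by omega)

theorem exists_down (hm : 2 ≤ m) (x : Vert r m) :
    ∃ y : Vert r m, (G r m).Adj x y ∧ ∀ j, 1 ≤ y.co j ∧ (y.co j + 1 = x.co j ∨ y.co j ≤ 2) := by
  let f : Fin (r + 1) → ℕ := fun j =>
    if 2 ≤ x.co j then x.co j - 1 else if x.co j = 1 then 2 else 1
  have hf : ∀ j, x.co j + 1 = f j ∨ f j + 1 = x.co j := by
    intro j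
    simp only [f]
    split_ifs <;> omega
  have h1 : ∀ j, f j ≤ m := by
    intro j
    have := x.le j
    simp only [f]
    split_ifs <;> omega
  have h3 : ∀ j, 1 ≤ f j := by
    intro j
    simp only [f]
    split_ifs <;> omega
  refine ⟨Vert.mk f h1 ?_ ?_, fun j => by rw [Vert.co_mk]; exact hf j, ?_⟩
  · intro a b
    have := x.par a b
    have ha := hf a
    have hb := hf b
    omega
  · intro a b ha
    have := h3 a
    omega
  · intro j
    rw [Vert.co_mk]
    refine ⟨h3 j, ?_⟩
    simp only [f]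
    split_ifs <;> omega

theorem walk_one (hm : 2 ≤ m) : ∀ (B : ℕ) (x : Vert r m), (∀ j, x.co j ≤ B + 2) →
    ∃ p : (G r m).Walk x (one hm), p.length ≤ B + 2 := by
  intro B
  induction B with
  | zero =>
    intro x hx
    obtain ⟨y, hxy, hy⟩ := exists_down hm x
    have hy2 : ∀ j, y.co j = 1 ∨ y.co j = 2 := by
      intro j
      have := hy j
      have := hx j
      omega
    rcases hy2 0 with h0 | h0
    · have : y = one hm := by
        apply Vert.ext
        intro j
        have h1 := y.par j 0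
        have h2 := hy2 j
        show y.co j = 1
        omega
      subst this
      exact ⟨Walk.cons hxy Walk.nil, by simp⟩
    · have hadj : (G r m).Adj y (one hm) := by
        intro j
        have h1 := y.par j 0
        have h2 := hy2 j
        show y.co j + 1 = 1 ∨ 1 + 1 = y.co j
        omega
      exact ⟨Walk.cons hxy (Walk.cons hadj Walk.nil), by simp⟩
  | succ B ih =>
    intro x hx
    obtain ⟨y, hxy, hy⟩ := exists_down hm x
    obtain ⟨p, hp⟩ := ih y (by
      intro j
      have := hy j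
      have := hx j
      omega)
    exact ⟨Walk.cons hxy p, by rw [Walk.length_cons]; omega⟩

theorem conn (hm : 2 ≤ m) : (G r m).Connected := by
  have : Nonempty (Vert r m) := ⟨one hm⟩
  refine Connected.mk fun x y => ?_
  have h : ∀ x : Vert r m, (G r m).Reachable x (one hm) := by
    intro x
    obtain ⟨p, _⟩ := walk_one hm m x (fun j => by have := x.le j; omega)
    exact ⟨p⟩
  exact (h x).trans (h y).symm

theorem dist_le (hm : 2 ≤ m) (x y : Vert r m) : (G r m).dist x y ≤ 2 * m := by
  obtain ⟨B, rfl⟩ : ∃ B, m = B + 2 := ⟨m - 2, by omega⟩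
  obtain ⟨p, hp⟩ := walk_one hm B x (fun j => x.le j)
  obtain ⟨q, hq⟩ := walk_one hm B y (fun j => y.le j)
  have h1 := SimpleGraph.dist_le p
  have h2 := SimpleGraph.dist_le q
  have h3 := (conn hm).dist_triangle (u := x) (v := one hm) (w := y)
  rw [dist_comm (u := one hm) (v := y)] at h3
  omega

theorem dSet_eq (hm : 2 ≤ m) (x : Vert r m) (i : Fin (r + 1)) :
    dSet (G r m) x {w | col w = ⟨(i : ℕ), by have := i.2; omega⟩} = x.co i := by
  apply le_antisymm
  · obtain ⟨y, p, hy, hp⟩ := exists_walk hm i (x.co i) x rfl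
    have hmem : (G r m).dist x y ∈ {n | ∃ u ∈ {w : Vert r m | col w = ⟨(i : ℕ), by
        have := i.2; omega⟩}, (G r m).dist x u = n} := ⟨y, (col_zero y i).2 hy, rfl⟩
    exact (Nat.sInf_le hmem).trans ((SimpleGraph.dist_le p).trans hp.le)
  · obtain ⟨y, p, hy, hp⟩ := exists_walk hm i (x.co i) x rfl
    have hne : {n | ∃ u ∈ {w : Vert r m | col w = ⟨(i : ℕ), by
        have := i.2; omega⟩}, (G r m).dist x u = n}.Nonempty :=
      ⟨_, y, (col_zero y i).2 hy, rfl⟩
    obtain ⟨u, hu, hd⟩ := Nat.sInf_mem hne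
    have hu0 := (col_zero u i).1 hu
    obtain ⟨q, hq⟩ := ((conn hm) x u).exists_walk_length_eq_dist
    have := walk_lower i q
    unfold dSet
    rw [← hd]
    omega

theorem col_locating (hm : 2 ≤ m) : IsLocating (G r m) (col : Vert r m → Fin (r + 3)) := by
  refine ⟨col_proper, ?_⟩
  intro x y h
  apply Vert.ext
  intro i
  have := h ⟨(i : ℕ), by have := i.2; omega⟩
  rwa [dSet_eq hm, dSet_eq hm] at this

theorem chiL_le (hm : 2 ≤ m) : chiL (G r m) ≤ r + 3 := Nat.sInf_le ⟨col, col_locating hm⟩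

/-! ### Counting -/

theorem card_lower (s : ℕ) (hs : 1 ≤ s) : s ^ (r + 1) ≤ Fintype.card (Vert r (2 * s)) := by
  classical
  let g : (Fin (r + 1) → Fin s) → Vert r (2 * s) := fun t =>
    Vert.mk (fun j => 2 * (t j : ℕ) + 1) (fun j => by have := (t j).2; omega)
      (fun i j => by omega) (fun i j h => by omega)
  have hg : Function.Injective g := by
    intro t u h
    funext j
    have h1 : (g t).co j = (g u).co j := by rw [h]
    have h2 : 2 * (t j : ℕ) + 1 = 2 * (u j : ℕ) + 1 := h1
    exact Fin.ext (by omega)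
  have := Fintype.card_le_of_injective g hg
  rwa [Fintype.card_fun, Fintype.card_fin, Fintype.card_fin] at this

theorem card_upper {V : Type} [Fintype V] (H : SimpleGraph V) (D k : ℕ)
    (hD : ∀ u v, H.dist u v ≤ D) (c : V → Fin k) (hc : IsLocating H c) :
    Fintype.card V ≤ (D + 1) ^ k := by
  classical
  have hle : ∀ v i, dSet H v {w | c w = i} ≤ D := by
    intro v i
    by_cases h : ∃ u, c u = i
    · obtain ⟨u, hu⟩ := h
      exact (Nat.sInf_le ⟨u, hu, rfl⟩ : dSet H v {w | c w = i} ≤ H.dist v u).trans (hD v u)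
    · have : {n | ∃ u ∈ {w | c w = i}, H.dist v u = n} = ∅ := by
        ext n
        simp only [Set.mem_ofPred_eq, Set.mem_empty_iff_false, iff_false, not_exists, not_and]
        intro u hu
        exact absurd ⟨u, hu⟩ h
      unfold dSet
      rw [this, Nat.sInf_empty]
      exact Nat.zero_le _
  let f : V → (Fin k → Fin (D + 1)) := fun v i => ⟨dSet H v {w | c w = i}, Nat.lt_succ_iff.2 (hle v i)⟩
  have hf : Function.Injective f := by
    intro u v h
    apply hc.2 u v
    intro i
    exact congrArg Fin.val (congrFun h i)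
  have := Fintype.card_le_of_injective f hf
  rwa [Fintype.card_fun, Fintype.card_fin, Fintype.card_fin] at this

theorem dist_prod_le (hm : 2 ≤ m) (x y : Vert r m × Vert r m) :
    (G r m □ G r m).dist x y ≤ 4 * m := by
  have h := edist_boxProd (G := G r m) (H := G r m) x y
  rw [← ((conn hm).boxProd (conn hm) x y).coe_dist_eq_edist,
    ← ((conn hm) x.1 y.1).coe_dist_eq_edist, ← ((conn hm) x.2 y.2).coe_dist_eq_edist] at h
  have h' : (G r m □ G r m).dist x y = (G r m).dist x.1 y.1 + (G r m).dist x.2 y.2 := by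
    exact_mod_cast h
  have h1 := dist_le hm x.1 y.1
  have h2 := dist_le hm x.2 y.2
  omega

theorem all_locating {V : Type} [Fintype V] (H : SimpleGraph V) (hH : H.Connected) :
    ∃ c : V → Fin (Fintype.card V), IsLocating H c := by
  classical
  let e := Fintype.equivFin V
  refine ⟨e, fun u v h he => h.ne (e.injective he), fun u v h => ?_⟩
  have h1 := h (e u)
  have h2 : dSet H u {w | e w = e u} = 0 :=
    Nat.le_zero.1 (Nat.sInf_le ⟨u, rfl, by simp⟩)
  rw [h2] at h1
  have hne : {n | ∃ w ∈ {w | e w = e u}, H.dist v w = n}.Nonempty := ⟨_, u, rfl, rfl⟩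
  obtain ⟨w, hw, hd⟩ := Nat.sInf_mem hne
  unfold dSet at h1
  rw [← h1] at hd
  have hwu : w = u := e.injective hw
  subst hwu
  exact ((hH.dist_eq_zero_iff).1 hd).symm

theorem main (r : ℕ) : ∃ m, 2 ≤ m ∧ 2 * r + 2 ≤ chiL (G r m □ G r m) := by
  let s : ℕ := 9 ^ (2 * r + 2)
  have hs : 1 ≤ s := Nat.one_le_pow _ _ (by norm_num)
  have hs9 : 9 ^ (2 * r + 1) < s := Nat.pow_lt_pow_right (by norm_num) (by omega)
  have hm : 2 ≤ 2 * s := by omega
  refine ⟨2 * s, hm, ?_⟩
  by_contra hlt
  push Not at hlt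
  have hne : {k | ∃ c : Vert r (2 * s) × Vert r (2 * s) → Fin k,
      IsLocating (G r (2 * s) □ G r (2 * s)) c}.Nonempty :=
    ⟨_, all_locating _ ((conn hm).boxProd (conn hm))⟩
  obtain ⟨c, hc⟩ := Nat.sInf_mem hne
  have h1 := card_upper _ (4 * (2 * s)) _ (dist_prod_le hm) c hc
  have hk : sInf {k | ∃ c : Vert r (2 * s) × Vert r (2 * s) → Fin k,
      IsLocating (G r (2 * s) □ G r (2 * s)) c} ≤ 2 * r + 1 := by
    unfold chiL at hlt
    omega
  have h2 : s ^ (r + 1) * s ^ (r + 1) ≤
      Fintype.card (Vert r (2 * s) × Vert r (2 * s)) := by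
    rw [Fintype.card_prod]
    exact Nat.mul_le_mul (card_lower s hs) (card_lower s hs)
  have h3 : (4 * (2 * s) + 1) ^ (sInf {k | ∃ c : Vert r (2 * s) × Vert r (2 * s) → Fin k,
      IsLocating (G r (2 * s) □ G r (2 * s)) c}) ≤ (9 * s) ^ (2 * r + 1) :=
    (Nat.pow_le_pow_right (by omega) hk).trans (Nat.pow_le_pow_left (by omega) _)
  have h4 : (9 * s) ^ (2 * r + 1) < s ^ (r + 1) * s ^ (r + 1) := by
    rw [mul_pow, ← pow_add]
    calc 9 ^ (2 * r + 1) * s ^ (2 * r + 1) < s * s ^ (2 * r + 1) :=
          Nat.mul_lt_mul_of_pos_right hs9 (pow_pos (by omega) _)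
      _ = s ^ (r + 1 + (r + 1)) := by
          rw [← pow_succ']
          congr 1
          omega
  omega

/-- For every `t` there is a finite connected graph `G` with `χ_L(G □ G) ≥ χ_L(G) + t`. In
particular `χ_L(G □ H) ≤ max (χ_L(G), χ_L(H)) + 3` does not hold for all connected `G, H`. -/
theorem result :
    (∀ t : ℕ, ∃ (V : Type) (_ : Fintype V) (G : SimpleGraph V), G.Connected ∧
      chiL G + t ≤ chiL (G □ G)) ∧
    ¬ ∀ (V W : Type) [Fintype V] [Fintype W] (G : SimpleGraph V) (H : SimpleGraph W),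
      G.Connected → H.Connected → chiL (G □ H) ≤ max (chiL G) (chiL H) + 3 := by
  have h : ∀ t : ℕ, ∃ (V : Type) (_ : Fintype V) (G : SimpleGraph V), G.Connected ∧
      chiL G + t ≤ chiL (G □ G) := by
    intro t
    obtain ⟨m, hm, h⟩ := main (t + 1)
    refine ⟨Vert (t + 1) m, inferInstance, G (t + 1) m, conn hm, ?_⟩
    have := chiL_le (r := t + 1) hm
    omega
  refine ⟨h, fun hall => ?_⟩
  obtain ⟨V, hV, G, hG, hle⟩ := h 4
  have := hall V V G G hG hG
  rw [max_self] at this
  omega

end Pool.Agent.Results.MP_fc8d4d_co.LocatingProduct
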